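import Pool.Agent.COSB.StmtsL

/-!
# Lattice isomorphism is in parity-P (row LIF of squad COSB)
-/

set_option autoImplicit false

namespace Pool.Agent.COSB.H69L

open Turing Computability Pool.Agent.UT.Num Pool.Agent.H2XG Pool.Agent.PAR Pool.Agent.COS Matrix

theorem LA_mono {n n' k k' l l' : ℕ} (h1 : n ≤ n') (h2 : k ≤ k') (h3 : l ≤ l') :
    LA n k l ≤ LA n' k' l' := by
  unfold LA hl fl cl
  gcongr

theorem lead_le (x : Word) : LAT.lead x ≤ x.length := by
  unfold LAT.lead
  exact (List.takeWhile_sublist _).length_le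

theorem fL_iff (enz : EnzStmt) (chz : ChzStmt) (wrl : WrlStmt) (n w : ℕ)
    (Q Q' : Matrix (Fin n) (Fin n) ℤ) (hQ : ∀ i j, |Q i j| < 2 ^ w) (hQ' : ∀ i j, |Q' i j| < 2 ^ w)
    (u c : Word) (hu : u.length = n * n * (wl n w + 1)) (hc : c.length = n * n * (wl n w + 1)) :
    fL (encL n w Q Q') u c = true ↔ ∃ U ∈ SL w Q Q', u = encZ (wl n w) U.1 ∧
      c = encZ (wl n w) (U⁻¹).1 := by
  obtain ⟨e1, e2, e3, e4⟩ := wrl n w Q Q' hQ hQ'
  have e5 : wx (encL n w Q Q') = wl n w := by unfold wx; rw [e1, e2]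
  have h0 : fL (encL n w Q Q') u c = true ↔ FL (encL n w Q Q') u c := by
    unfold fL
    classical
    exact decide_eq_true_iff
  rw [h0]
  unfold FL
  rw [e1, e5, chz n (wl n w) u c hu hc]
  have key : ∀ U : Matrix.GeneralLinearGroup (Fin n) ℤ, RgU (wl n w) U → u = encZ (wl n w) U.1 →
      ((∀ i < n, ∀ j < n, ∑ a ∈ Finset.range n, ∑ b ∈ Finset.range n,
        nz n (wl n w) u i a * qQ (encL n w Q Q') a b * nz n (wl n w) u j b =
          qR (encL n w Q Q') i j) ↔ U.1 * Q * U.1ᵀ = Q') := by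
    intro U hU hu'
    have hz : ∀ i j : Fin n, nz n (wl n w) u i j = U.1 i j := fun i j => by
      rw [hu']
      exact (enz n (wl n w)).2.1 U.1 i j (hU i j).1.1 (hU i j).1.2
    have hs : ∀ i j : Fin n, ∑ a ∈ Finset.range n, ∑ b ∈ Finset.range n,
        nz n (wl n w) u i a * qQ (encL n w Q Q') a b * nz n (wl n w) u j b =
          (U.1 * Q * U.1ᵀ) i j := by
      intro i j
      rw [Finset.sum_range]
      simp_rw [Finset.sum_range]
      rw [Matrix.mul_apply, Finset.sum_comm]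
      refine Finset.sum_congr rfl fun b _ => ?_
      rw [Matrix.mul_apply, Finset.sum_mul]
      refine Finset.sum_congr rfl fun a _ => ?_
      rw [hz, hz, e3, Matrix.transpose_apply]
    constructor
    · intro h
      ext i j
      rw [← hs i j, h i i.2 j j.2, e4]
    · intro h i hi j hj
      have := hs ⟨i, hi⟩ ⟨j, hj⟩
      rw [h, ← e4] at this
      exact this
  constructor
  · rintro ⟨⟨U, hU, hu', hc'⟩, h⟩
    exact ⟨U, ⟨hU, (key U hU hu').1 h⟩, hu', hc'⟩
  · rintro ⟨U, ⟨hU, h⟩, hu', hc'⟩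
    exact ⟨⟨U, hU, hu', hc'⟩, (key U hU hu').2 h⟩

theorem lif (act : ActStmt) (amc : AmcStmt) (pab : PabStmt) (enz : EnzStmt) (chz : ChzStmt)
    (inh : InhStmt) (hpl : HplStmt) (wrl : WrlStmt) (lmc : LmcStmt) : LifStmt := by
  obtain ⟨l1, l2, l3⟩ := lmc
  refine ⟨{x | Od (LA (qn x) (wx x + 1) (qn x * qn x * (wx x + 1)))
    (fun c => valA (fL x) (qn x) (wx x + 1) (qn x * qn x * (wx x + 1)) c = true)}, ?_, ?_⟩
  · refine pab (fun x c => valA (fL x) (qn x) (wx x + 1) (qn x * qn x * (wx x + 1)) c)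
      (fun x => LA (qn x) (wx x + 1) (qn x * qn x * (wx x + 1)))
      (let X : Polynomial ℕ := Polynomial.X
       let k := (X + 1) * (X + X) + 1
       let l := X * X * k
       let N := k * (X * X)
       (X * X + X * X * k) + ((X * X + X * X * k) + ((2 * N + 2 * (N * N)) +
        (l + (N * l + N * l))))) ?_ ?_ ?_
    · intro m A B hA hB
      have hn := l2 m A hA
      have hw := FPN.add (l3 m A hA) (FPN.const 1)
      exact amc (fun x _ _ u c => fL x u c) l1 m A A A B _ _ _ hA hA hA hB hn hw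
        (FPN.mul (FPN.mul hn hn) hw)
    · intro m A hA
      have hn := l2 m A hA
      have hw := FPN.add (l3 m A hA) (FPN.const 1)
      have hl' := FPN.mul (FPN.mul hn hn) hw
      have hN := FPN.mul hw (FPN.mul hn hn)
      have hh := FPN.add (FPN.mul hn hn) (FPN.mul (FPN.mul hn hn) hw)
      exact FPN.add hh (FPN.add hh (FPN.add (FPN.add (FPN.mul (FPN.const 2) hN)
        (FPN.mul (FPN.const 2) (FPN.mul hN hN)))
        (FPN.add hl' (FPN.add (FPN.mul hN hl') (FPN.mul hN hl')))))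
    · intro x
      have h1 : qn x ≤ x.length := lead_le x
      have h2 : qw x ≤ x.length := by
        refine (lead_le _).trans ?_
        unfold q1
        rw [List.length_drop]
        exact Nat.sub_le _ _
      have h3 : wx x + 1 ≤ (x.length + 1) * (x.length + x.length) + 1 := by
        unfold wx wl
        gcongr
      refine (LA_mono h1 h3 (Nat.mul_le_mul (Nat.mul_le_mul h1 h1) h3)).trans (le_of_eq ?_)
      unfold LA hl fl cl
      simp only [Polynomial.eval_add, Polynomial.eval_mul, Polynomial.eval_X, Polynomial.eval_one,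
        Polynomial.eval_ofNat]
  · intro n w Q Q' pQ pQ' hQ hQ'
    obtain ⟨e1, e2, _, _⟩ := wrl n w Q Q' hQ hQ'
    have e5 : wx (encL n w Q Q') = wl n w := by unfold wx; rw [e1, e2]
    obtain ⟨s1, s2⟩ := hpl n w Q Q' pQ pQ' hQ hQ'
    obtain ⟨i1, i2⟩ := inh n (wl n w) (SL w Q Q') s1 (fun U hU => hU.1) (fL (encL n w Q Q'))
      (fun u c hu hc => fL_iff enz chz wrl n w Q Q' hQ hQ' u c hu hc)
    rw [← s2, ← i2, ← act n (wl n w + 1) _ (fL (encL n w Q Q')) (by omega) i1]
    rw [Set.mem_setOf_eq, e1, e5]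

end Pool.Agent.COSB.H69L
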