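import Pool.Agent.Helper69_COSB.FinC
import Pool.Agent.Helper69_COSB.LIF
import Pool.Agent.Helper43_COSB.BDL

/-!
# Squad COSB (MP_0fc649_lc), part 1: the final theorems
-/

namespace Pool.Agent.COSB.H69

/-- lattice isomorphism is in parity-P -/
theorem lif : LifStmt := lif_of H43.bdl H69L.lif

end Pool.Agent.COSB.H69
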