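import Pool.Agent.Helper91_COS.GRP
import Pool.Agent.Helper21_COS.CRD
import Pool.Agent.Helper49_COS.RED
import Pool.Agent.Helper20_COS.FRM
import Pool.Agent.Helper13_COS.WRA
import Pool.Agent.Helper67_COS.WRB
import Pool.Agent.Helper27_COSB.ODC
import Pool.Agent.Helper49_COSB.RDK
import Pool.Agent.Helper64_COSB.PRK
import Pool.Agent.Helper92_COSB.DGT
import Pool.Agent.Helper30_COSB.FRK
import Pool.Agent.Helper45_COSB.WOE
import Pool.Agent.Helper35_COSB.WOC
import Pool.Agent.Helper88_COSB.SEW
import Pool.Agent.Helper39_COSB.HLF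
import Pool.Agent.Helper25_COSB.FCW
import Pool.Agent.Helper13_COSB.ACT
import Pool.Agent.Helper75_COSB.AM1
import Pool.Agent.Helper95_COSB.MA2
import Pool.Agent.Helper50_COSB.ONE

/-!
# Squad COSB (MP_0fc649_lc), part 1: assembly up to HMK, AMC, PAB, ECP
-/

namespace Pool.Agent.COSB.H69

open Pool.Agent.COS

/-- the number of the certificates, from HMK -/
theorem act_of (hmk : DgtStmt → RdkStmt → CrdStmt → HmkStmt) : ActStmt :=
  have odc : OdcStmt := H27.odc
  have rdk : RdkStmt := H49R.rdk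
  have prk : PrkStmt := H64.prk COS.H91.grp COS.H21.crd COS.H49.red rdk
  have frk : FrkStmt := H30.frk COS.H20.frm COS.H21.crd rdk (hmk H92.dgt rdk COS.H21.crd)
  have sew : SewStmt := H88.sew rdk H45.woe H35.woc
  have hlf : HlfStmt := H39.hlf odc COS.H13.wra rdk H45.woe H35.woc
  have fcw : FcwStmt := H25.fcw odc COS.H67.wrb
  H13.act odc rdk prk frk sew hlf fcw

/-- the theorem for `p = 2` -/
theorem ma2_of (act : ActStmt) (amc : AmcStmt) (pab : PabStmt) (ecp : EcpStmt) : Ma2Stmt :=
  H95.ma2 act amc pab ecp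

/-- the interface of part 2 -/
theorem one_of (act : ActStmt) (amc : AmcStmt) : OneStmt := H50.one act amc H45.woe

end Pool.Agent.COSB.H69
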