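import Pool.Agent.COSB.StmtsA

/-!
# Row PAB of squad COSB: languages in parity-P
-/

set_option autoImplicit false

namespace Pool.Agent.COSB.H69

open Turing Computability Pool.Agent.UT.Num Pool.Agent.H2XG Pool.Agent.PAR Pool.Agent.COS

theorem pab : PabStmt := by
  intro g L q hg hL hq
  refine ⟨fun z => decide (z.2.length = L z.1) && g z.1 z.2, q,
    polyPair_of' (g := fun x c => decide (c.length = L x) && g x c)
      (fun m A B hA hB => FPB.and (FPB.eqN (FPW.len hB) (hL m A hA)) (hg m A B hA hB)),
    fun x => ?_⟩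
  have hw : witnesses (fun z => decide (z.2.length = L z.1) && g z.1 z.2) q x =
      {c : Word | c.length = L x ∧ g x c = true} := by
    ext c
    simp only [witnesses, Set.mem_setOf_eq, Bool.and_eq_true, decide_eq_true_eq]
    constructor
    · rintro ⟨_, h1, h2⟩
      exact ⟨h1, h2⟩
    · rintro ⟨h1, h2⟩
      exact ⟨h1 ▸ hq x, h1, h2⟩
  rw [hw]
  rfl

end Pool.Agent.COSB.H69
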