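import Pool.Agent.Helper69_COSB.FinA
import Pool.Agent.Helper69_COSB.PAB
import Pool.Agent.Helper66_COSB.HMK
import Pool.Agent.Helper86_COSB.AMC
import Pool.Agent.Helper76_COSB.ECP

/-!
# Squad COSB (MP_0fc649_lc), part 1: assembly for `Z / 2^k`
-/

namespace Pool.Agent.COSB.H69

/-- the number of the certificates -/
theorem act : ActStmt := act_of H66.hmk

/-- the machine -/
theorem amc : AmcStmt := H86.amc H75A.am1

/-- the theorem for `p = 2` -/
theorem ma2 : ManStmt 2 := ma2_of act amc pab H76.ecp

/-- the interface of part 2 -/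
theorem one : OneStmt := one_of act amc

end Pool.Agent.COSB.H69
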