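import Pool.Agent.Helper69_COSB.FinB
import Pool.Agent.Helper58_LAT.WD
import Pool.Agent.Helper45_COSB.TBZ
import Pool.Agent.Helper77_COSB.ENZ
import Pool.Agent.Helper30_COSB.CHZ
import Pool.Agent.Helper62_COSB.INH
import Pool.Agent.Helper15_COSB.HPL
import Pool.Agent.Helper27_COSB.WRL
import Pool.Agent.Helper60_COSB.LMC
import Pool.Agent.Helper25_COSB.IZM
import Pool.Agent.Helper75_COSB.IZF

/-!
# Squad COSB (MP_0fc649_lc), part 1b: assembly up to BDL and LIF
-/

namespace Pool.Agent.COSB.H69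

theorem enz : EnzStmt := H77.enz H45.tbz LAT.H58.wda LAT.H58.wdb

theorem chz : ChzStmt := H30.chz enz

theorem inh : InhStmt := H62.inh H45.woe enz

theorem wrl : WrlStmt := H27W.wrl enz

/-- heaps of integer matrices -/
theorem izf : IzfStmt := H75Z.izf act amc pab chz inh H25.izm

/-- lattice isomorphism, from BDL and LIF -/
theorem lif_of (bdl : BdlStmt) (lif : ActStmt → AmcStmt → PabStmt → EnzStmt → ChzStmt → InhStmt →
    HplStmt → WrlStmt → LmcStmt → LifStmt) : LifStmt :=
  lif act amc pab enz chz inh (H15.hpl bdl) wrl H60.lmc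

end Pool.Agent.COSB.H69
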